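import Pool.Agent.H124R2.Vis.Exit
import Pool.Agent.H247R2.Warren

/-!
# The upper bound
-/

namespace Run7.h196.Vis

open Set Vis124

section

variable {n : ℕ} {v v' : Fin n → ℝ × ℝ}

theorem pos_congr {a b : ℝ} (h : SignType.sign a = SignType.sign b) : 0 < a ↔ 0 < b := by
  rw [← sign_eq_one_iff, ← sign_eq_one_iff, h]

theorem neg_congr' {a b : ℝ} (h : SignType.sign a = SignType.sign b) : a < 0 ↔ b < 0 := by
  rw [← sign_eq_neg_one_iff, ← sign_eq_neg_one_iff, h]

theorem zero_congr {a b : ℝ} (h : SignType.sign a = SignType.sign b) : a = 0 ↔ b = 0 := by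
  rw [← sign_eq_zero_iff, ← sign_eq_zero_iff (a := b), h]

theorem nonpos_congr {a b : ℝ} (h : SignType.sign a = SignType.sign b) : a ≤ 0 ↔ b ≤ 0 := by
  rw [← not_lt, ← not_lt, pos_congr h]

theorem sign_mul_congr {a b a' b' : ℝ} (h : SignType.sign a = SignType.sign a')
    (h' : SignType.sign b = SignType.sign b') :
    SignType.sign (a * b) = SignType.sign (a' * b') := by
  rw [sign_mul, sign_mul, h, h']

theorem exits_congr (σ : ℝ)
    (ho : ∀ a b c, SignType.sign (ori (v a) (v b) (v c)) = SignType.sign (ori (v' a) (v' b) (v' c)))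
    (hd : ∀ a b c,
      SignType.sign (dotp (v a) (v b) (v c)) = SignType.sign (dotp (v' a) (v' b) (v' c)))
    (i j : Fin n) :
    ((∃ k, VExit σ v i j k) ∨ (∃ l, EExit σ v i j l)) ↔
      ((∃ k, VExit σ v' i j k) ∨ (∃ l, EExit σ v' i j l)) := by
  have hV : ∀ k, VExit σ v i j k ↔ VExit σ v' i j k := by
    intro k
    have e1 : cr (wd v k) (ud v k) = ori (v k) (v (sc k)) (v (pd k)) := rfl
    have e2 : cr (wd v k) (v j - v k) = ori (v k) (v (sc k)) (v j) := rfl
    have e3 : cr (v j - v k) (ud v k) = ori (v k) (v j) (v (pd k)) := rfl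
    have e1' : cr (wd v' k) (ud v' k) = ori (v' k) (v' (sc k)) (v' (pd k)) := rfl
    have e2' : cr (wd v' k) (v' j - v' k) = ori (v' k) (v' (sc k)) (v' j) := rfl
    have e3' : cr (v' j - v' k) (ud v' k) = ori (v' k) (v' j) (v' (pd k)) := rfl
    unfold VExit Sec
    simp only [mem_ofPred_eq]
    rw [e1, e2, e3, e1', e2', e3', zero_congr (ho i j k), nonpos_congr (hd k i j),
      pos_congr (sign_mul_congr (rfl : SignType.sign (-σ) = _) (ho k (sc k) (pd k))),
      nonpos_congr (sign_mul_congr (rfl : SignType.sign (-σ) = _) (ho k (sc k) (pd k))),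
      pos_congr (sign_mul_congr (rfl : SignType.sign (-σ) = _) (ho k (sc k) j)),
      pos_congr (sign_mul_congr (rfl : SignType.sign (-σ) = _) (ho k j (pd k)))]
  have hE : ∀ k, EExit σ v i j k ↔ EExit σ v' i j k := by
    intro l
    unfold EExit
    rw [pos_congr (sign_mul_congr (rfl : SignType.sign σ = _) (ho l (sc l) i)),
      neg_congr' (sign_mul_congr (rfl : SignType.sign σ = _) (ho l (sc l) j)),
      neg_congr' (sign_mul_congr (ho i j l) (ho i j (sc l)))]
  simp only [hV, hE]

open MvPolynomial in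
/-- the polynomials whose signs determine the visibility graph -/
noncomputable def fam (n : ℕ) : (Fin n × Fin n × Fin n × Bool) → MvPolynomial (Fin n × Bool) ℝ
  | (a, b, c, false) => (X (b, false) - X (a, false)) * (X (c, true) - X (a, true)) -
      (X (b, true) - X (a, true)) * (X (c, false) - X (a, false))
  | (a, b, c, true) => (X (b, false) - X (a, false)) * (X (c, false) - X (a, false)) +
      (X (b, true) - X (a, true)) * (X (c, true) - X (a, true))

open MvPolynomial in
theorem deg_fam (n : ℕ) (j) : (fam n j).totalDegree ≤ 2 := by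
  have h1 : ∀ p q : Fin n × Bool,
      (X p - X q : MvPolynomial (Fin n × Bool) ℝ).totalDegree ≤ 1 := by
    intro p q
    refine (totalDegree_sub _ _).trans ?_
    rw [totalDegree_X, totalDegree_X]; exact le_rfl
  have h2 : ∀ p q r s : Fin n × Bool,
      ((X p - X q) * (X r - X s) : MvPolynomial (Fin n × Bool) ℝ).totalDegree ≤ 2 := by
    intro p q r s
    refine (totalDegree_mul _ _).trans ?_
    have := h1 p q
    have := h1 r s
    omega
  rcases j with ⟨a, b, c, _ | _⟩
  · refine (totalDegree_sub _ _).trans ?_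
    exact max_le (h2 _ _ _ _) (h2 _ _ _ _)
  · refine (totalDegree_add _ _).trans ?_
    exact max_le (h2 _ _ _ _) (h2 _ _ _ _)

/-- coordinates as a point of the parameter space -/
def coord {n : ℕ} (v : Fin n → ℝ × ℝ) : Fin n × Bool → ℝ
  | (i, false) => (v i).1
  | (i, true) => (v i).2

open MvPolynomial in
theorem eval_ori (v : Fin n → ℝ × ℝ) (a b c : Fin n) :
    eval (coord v) (fam n (a, b, c, false)) = ori (v a) (v b) (v c) := by
  simp [fam, coord, ori, cr]

open MvPolynomial in
theorem eval_dotp (v : Fin n → ℝ × ℝ) (a b c : Fin n) :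
    eval (coord v) (fam n (a, b, c, true)) = dotp (v a) (v b) (v c) := by
  simp [fam, coord, dotp]

/-- the sign data -/
noncomputable def sg (v : Fin n → ℝ × ℝ) : (Fin n × Fin n × Fin n × Bool) → SignType :=
  fun j => SignType.sign (MvPolynomial.eval (coord v) (fam n j))

theorem visGraph_eq {P P' : Set (ℝ × ℝ)} (h : IsSimplePolygon v P) (h' : IsSimplePolygon v' P')
    {σ : ℝ} (hσ : σ = 1 ∨ σ = -1)
    (hint : ∀ k, Ev v (interior P) σ k) (hext : ∀ k, Ev v Pᶜ (-σ) k)
    (hint' : ∀ k, Ev v' (interior P') σ k) (hext' : ∀ k, Ev v' P'ᶜ (-σ) k)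
    (hs : sg v = sg v') : visGraph v P = visGraph v' P' := by
  have ho : ∀ a b c, SignType.sign (ori (v a) (v b) (v c)) =
      SignType.sign (ori (v' a) (v' b) (v' c)) := by
    intro a b c
    have := congrFun hs (a, b, c, false)
    unfold sg at this
    rwa [eval_ori, eval_ori] at this
  have hd : ∀ a b c, SignType.sign (dotp (v a) (v b) (v c)) =
      SignType.sign (dotp (v' a) (v' b) (v' c)) := by
    intro a b c
    have := congrFun hs (a, b, c, true)
    unfold sg at this
    rwa [eval_dotp, eval_dotp] at this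
  have key : ∀ i j, i ≠ j → (segment ℝ (v i) (v j) ⊆ P ↔ segment ℝ (v' i) (v' j) ⊆ P') := by
    intro i j hij
    rw [← not_iff_not]
    constructor
    · intro hn
      have h1 := exit_of_not_visible h hσ hint hext hij hn
      rw [exits_congr σ ho hd i j] at h1
      exact not_visible_of_exit h' hσ hext' hij h1
    · intro hn
      have h1 := exit_of_not_visible h' hσ hint' hext' hij hn
      rw [← exits_congr σ ho hd i j] at h1
      exact not_visible_of_exit h hσ hext hij h1
  ext i j
  constructor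
  · rintro ⟨h1, h2⟩; exact ⟨h1, (key i j h1).1 h2⟩
  · rintro ⟨h1, h2⟩; exact ⟨h1, (key i j h1).2 h2⟩

end

theorem N_le (n : ℕ) : N n ≤ 2 * (16 * n ^ 3 + 1) ^ (2 * n) := by
  classical
  -- a polygon for each class
  have hex : ∀ q : Quotient (isoSetoid n), ∃ b : Bool × ((Fin n × Fin n × Fin n × Bool) → SignType),
      q ∈ visClasses n → ∃ (v : Fin n → ℝ × ℝ) (P : Set (ℝ × ℝ)), IsSimplePolygon v P ∧
        q = Quotient.mk (isoSetoid n) (visGraph v P) ∧ b.2 = sg v ∧
        (∀ k, Ev v (interior P) (if b.1 then 1 else -1) k) ∧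
        (∀ k, Ev v Pᶜ (-(if b.1 then 1 else -1)) k) := by
    intro q
    by_cases hq : q ∈ visClasses n
    · obtain ⟨v, P, h, hq'⟩ := hq
      obtain ⟨σ, hσ, h1, h2⟩ := oriented h
      rcases hσ with rfl | rfl
      · exact ⟨(true, sg v), fun _ => ⟨v, P, h, hq', rfl, by simpa using h1, by simpa using h2⟩⟩
      · exact ⟨(false, sg v), fun _ => ⟨v, P, h, hq', rfl, by simpa using h1, by simpa using h2⟩⟩
    · exact ⟨default, fun h => absurd h hq⟩
  choose F hF using hex
  set S : Finset ((Fin n × Fin n × Fin n × Bool) → SignType) :=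
    Finset.univ.filter (fun s => ∃ x : Fin n × Bool → ℝ,
      ∀ j, SignType.sign (MvPolynomial.eval x (fam n j)) = s j) with hS
  have hScard : S.card ≤ (16 * n ^ 3 + 1) ^ (2 * n) := by
    have := Pool.Agent.H247R2.Warren.sign_count (fam n) 2 (deg_fam n) S (by
      intro s hs
      rw [hS, Finset.mem_filter] at hs
      exact hs.2)
    simp only [Fintype.card_prod, Fintype.card_fin, Fintype.card_bool] at this
    have e1 : 4 * (n * (n * (n * 2)) * 2) + 1 = 16 * n ^ 3 + 1 := by ring
    rw [e1, mul_comm n 2] at this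
    exact this
  have hmaps : Set.MapsTo F (visClasses n)
      (((Finset.univ : Finset Bool) ×ˢ S : Finset _) : Set (Bool × _)) := by
    intro q hq
    obtain ⟨v, P, h, h1, h2, h3, h4⟩ := hF q hq
    rw [Finset.mem_coe, Finset.mem_product]
    refine ⟨Finset.mem_univ _, ?_⟩
    rw [hS, Finset.mem_filter]
    refine ⟨Finset.mem_univ _, coord v, fun j => ?_⟩
    rw [h2]; rfl
  have hinj : Set.InjOn F (visClasses n) := by
    intro q hq q' hq' heq
    obtain ⟨v, P, h, h1, h2, h3, h4⟩ := hF q hq
    obtain ⟨v', P', h', h1', h2', h3', h4'⟩ := hF q' hq'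
    rw [← heq] at h2' h3' h4'
    rw [h1, h1']
    congr 1
    refine visGraph_eq h h' ?_ h3 h4 h3' h4' (h2.symm.trans h2')
    split_ifs
    · exact Or.inl rfl
    · exact Or.inr rfl
  have hcard := Set.ncard_le_ncard_of_injOn F hmaps hinj (Finset.finite_toSet _)
  rw [Set.ncard_coe_finset, Finset.card_product, Finset.card_univ, Fintype.card_bool] at hcard
  exact hcard.trans (Nat.mul_le_mul_left 2 hScard)

end Run7.h196.Vis
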