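import Pool.Agent.Run7.h196.Vis.Decode
import Pool.Agent.Run7.h196.Vis.Upper

/-!
# The growth rate of the number of visibility graphs
-/

namespace Run7.h196.Vis

open Set Vis124

/-- The isomorphism classes of visibility graphs of simple polygons with `n` vertices, no three
consecutive vertices being collinear. -/
def visClassesNS (n : ℕ) : Set (Quotient (isoSetoid n)) :=
  {q | ∃ (v : Fin n → ℝ × ℝ) (P : Set (ℝ × ℝ)), IsSimplePolygon v P ∧ NoStraightAngle v ∧
    q = Quotient.mk (isoSetoid n) (visGraph v P)}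

/-- The number of isomorphism classes of visibility graphs of simple polygons with `n` vertices, no
three consecutive vertices being collinear. -/
noncomputable def NS (n : ℕ) : ℕ := (visClassesNS n).ncard

theorem finite_quot (n : ℕ) (S : Set (Quotient (isoSetoid n))) : S.Finite := by
  have : Finite (SimpleGraph (Fin n)) := inferInstance
  exact Set.toFinite S

theorem NS_le_N (n : ℕ) : NS n ≤ N n := by
  apply Set.ncard_le_ncard _ (finite_quot n _)
  rintro q ⟨v, P, h, -, hq⟩
  exact ⟨v, P, h, hq⟩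

theorem lower {n k : ℕ} (h : 6 * k + 8 ≤ n) : (k + 1) ^ k ≤ NS n := by
  classical
  obtain ⟨c, rfl⟩ : ∃ c, n = c + 5 * k + 7 + 1 := ⟨n - 5 * k - 8, by omega⟩
  have hck : k ≤ c := by omega
  set ext : (Fin k → Fin (k + 1)) → ℕ → ℕ :=
    fun f i => if h : i < k then (f ⟨i, h⟩ : ℕ) else 0 with hext
  have hf : ∀ f i, ext f i ≤ k := by
    intro f i
    simp only [hext]
    split_ifs with h1
    · have := (f ⟨i, h1⟩).2; omega
    · omega
  have hpoly : ∀ f : Fin k → Fin (k + 1), ∃ G : SimpleGraph (Fin (c + 5 * k + 7 + 1)),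
      Quotient.mk (isoSetoid _) G ∈ visClassesNS (c + 5 * k + 7 + 1) ∧
      ∀ v w : Fin (c + 5 * k + 7 + 1), v < w →
        (G.Adj v w ↔ Rel (pitF c k) (hF c k) (gF c k (ext f)) v w) := by
    intro f
    obtain ⟨v, P, h1, h2, h3⟩ := chain_polygon (by omega) (chainData hck (hf f))
    exact ⟨visGraph v P, ⟨v, P, h1, h2, rfl⟩, h3⟩
  choose G hG1 hG2 using hpoly
  have hinj : Function.Injective (fun f => Quotient.mk (isoSetoid _) (G f)) := by
    intro f f' heq
    obtain ⟨e⟩ := Quotient.exact heq
    funext i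
    have h1 := decode hck (hf f) (hf f') (hG2 f) (hG2 f') e i.2
    simp only [hext, i.2, dif_pos] at h1
    exact Fin.ext h1
  have h1 : (Set.range (fun f => Quotient.mk (isoSetoid _) (G f))) ⊆
      visClassesNS (c + 5 * k + 7 + 1) := by
    rintro _ ⟨f, rfl⟩; exact hG1 f
  have h2 := Set.ncard_le_ncard h1 (finite_quot _ _)
  rw [← Set.image_univ, Set.ncard_image_of_injective _ hinj, Set.ncard_univ,
    Nat.card_eq_fintype_card, Fintype.card_pi_const, Fintype.card_fin] at h2
  exact h2

open Asymptotics Filter in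
theorem theta_of_bounds (a : ℕ → ℕ) (hlow : ∀ n k, 6 * k + 8 ≤ n → (k + 1) ^ k ≤ a n)
    (hup : ∀ n, a n ≤ 2 * (16 * n ^ 3 + 1) ^ (2 * n)) :
    (fun n : ℕ => Real.logb 2 (a n)) =Θ[atTop] (fun n : ℕ => (n : ℝ) * Real.log n) := by
  have hlog2 : 0 < Real.log 2 := Real.log_pos (by norm_num)
  constructor
  · rw [isBigO_iff]
    refine ⟨17 / Real.log 2, ?_⟩
    filter_upwards [eventually_ge_atTop 8] with n hn
    have h1 : 1 ≤ a n := by
      have := hlow n 0 (by omega); simpa using this
    have hn' : (2 : ℕ) ≤ n := by omega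
    have h2 : a n ≤ n ^ (17 * n) := by
      refine (hup n).trans ?_
      have e1 : 16 * n ^ 3 + 1 ≤ n ^ 8 := by
        have e2 : 2 ^ 5 ≤ n ^ 5 := Nat.pow_le_pow_left hn' 5
        have e3 : n ^ 8 = n ^ 5 * n ^ 3 := by ring
        have e4 : 2 ^ 5 * n ^ 3 ≤ n ^ 5 * n ^ 3 := Nat.mul_le_mul_right _ e2
        have e5 : 1 ≤ n ^ 3 := Nat.one_le_pow _ _ (by omega)
        rw [e3]; omega
      calc 2 * (16 * n ^ 3 + 1) ^ (2 * n) ≤ n ^ n * (n ^ 8) ^ (2 * n) := by
            apply Nat.mul_le_mul
            · calc 2 ≤ n := hn'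
                _ = n ^ 1 := (pow_one n).symm
                _ ≤ n ^ n := Nat.pow_le_pow_right (by omega) (by omega)
            · exact Nat.pow_le_pow_left e1 _
        _ = n ^ (17 * n) := by rw [← pow_mul, ← pow_add]; congr 1; ring
    have hposn : (0 : ℝ) < n := by exact_mod_cast (by omega : 0 < n)
    have h3 : Real.log (a n) ≤ 17 * n * Real.log n := by
      have h4 : (a n : ℝ) ≤ (n : ℝ) ^ (17 * n) := by exact_mod_cast h2
      have h5 := Real.log_le_log (by exact_mod_cast h1 : (0 : ℝ) < a n) h4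
      rw [Real.log_pow] at h5
      push_cast at h5
      exact h5
    have h6 : 0 ≤ Real.log (a n) := Real.log_nonneg (by exact_mod_cast h1)
    have h7 : 0 ≤ Real.log n := Real.log_nonneg (by exact_mod_cast (by omega : 1 ≤ n))
    rw [Real.norm_of_nonneg (by unfold Real.logb; positivity), Real.norm_of_nonneg (by positivity)]
    unfold Real.logb
    rw [div_mul_eq_mul_div, div_le_div_iff_of_pos_right hlog2]
    linarith
  · rw [isBigO_iff]
    refine ⟨24 * Real.log 2, ?_⟩
    filter_upwards [eventually_ge_atTop 144] with n hn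
    set k := (n - 8) / 6 with hk
    have h1 : (k + 1) ^ k ≤ a n := hlow n k (by omega)
    have hk1 : n ≤ 12 * k := by omega
    have hposn : (0 : ℝ) < n := by exact_mod_cast (by omega : 0 < n)
    have hn' : (144 : ℝ) ≤ n := by exact_mod_cast hn
    have hk2 : (n : ℝ) ≤ 12 * k := by exact_mod_cast hk1
    have h7 : 0 ≤ Real.log n := Real.log_nonneg (by linarith)
    have h8 : Real.log n ≤ 2 * Real.log (k + 1) := by
      have e1 : (n : ℝ) ≤ (k + 1) ^ 2 := by nlinarith
      have e2 := Real.log_le_log hposn e1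
      rw [Real.log_pow] at e2
      push_cast at e2
      exact e2
    have h9 : (k : ℝ) * Real.log (k + 1) ≤ Real.log (a n) := by
      have e1 : ((k : ℝ) + 1) ^ k ≤ a n := by exact_mod_cast h1
      have e2 := Real.log_le_log (by positivity) e1
      rw [Real.log_pow] at e2
      exact e2
    have h10 : (n : ℝ) * Real.log n ≤ 24 * Real.log (a n) := by
      have e1 : (n : ℝ) * Real.log n ≤ (12 * k) * (2 * Real.log (k + 1)) :=
        mul_le_mul hk2 h8 h7 (by positivity)
      nlinarith
    have h6 : 0 ≤ Real.log (a n) := by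
      have : 0 ≤ (n : ℝ) * Real.log n := by positivity
      linarith
    rw [Real.norm_of_nonneg (by positivity), Real.norm_of_nonneg (by unfold Real.logb; positivity)]
    unfold Real.logb
    have e : 24 * Real.log 2 * (Real.log (a n) / Real.log 2) = 24 * Real.log (a n) := by
      field_simp
    rw [e]
    exact h10

end Run7.h196.Vis
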