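import Pool.Agent.Run7.h196.Vis.Mono

/-!
# Convex chains with pits
-/

namespace Run7.h196.Vis

open Set Vis124

/-- No three consecutive vertices are collinear (no vertex has a straight angle). -/
def NoStraightAngle {n : ℕ} (v : Fin n → ℝ × ℝ) : Prop :=
  ∀ i, ¬ Collinear ℝ {v i, v (finRotate n i), v (finRotate n (finRotate n i))}

theorem not_collinear_of_det {a b c : ℝ × ℝ}
    (h : (b.2 - a.2) * (c.1 - a.1) - (c.2 - a.2) * (b.1 - a.1) ≠ 0) :
    ¬ Collinear ℝ {a, b, c} := by
  intro hc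
  apply h
  rw [collinear_iff_of_mem (p₀ := a) (by simp)] at hc
  obtain ⟨w, hw⟩ := hc
  obtain ⟨r, hr⟩ := hw b (by simp)
  obtain ⟨s, hs⟩ := hw c (by simp)
  rw [hr, hs]
  simp only [vadd_eq_add, Prod.snd_add, Prod.smul_snd, Prod.fst_add, Prod.smul_fst, smul_eq_mul]
  ring

/-- the data of a chain with pits -/
structure ChainData (n : ℕ) (pit : ℕ → Prop) (h g : ℕ → ℕ) : Prop where
  one_le : ∀ t, pit t → 1 ≤ t
  lt_n : ∀ t, pit t → t + 1 < n
  next : ∀ t, pit t → ¬ pit (t + 1)
  h_le : ∀ t, pit t → h t + 1 ≤ t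
  g_ge : ∀ t t', pit t → pit t' → t' + 2 ≤ g t

/-- the offset of a pit -/
noncomputable def dl (h g : ℕ → ℕ) (t : ℕ) : ℝ :=
  ((h t : ℝ) + g t - 1 - 2 * t) / ((g t : ℝ) - h t + 2)

open Classical in
/-- first coordinates -/
noncomputable def X (pit : ℕ → Prop) (h g : ℕ → ℕ) (t : ℕ) : ℝ :=
  if pit t then t + dl h g t else t

open Classical in
/-- second coordinates, before subtracting the chord -/
noncomputable def Y (pit : ℕ → Prop) (h g : ℕ → ℕ) (t : ℕ) : ℝ :=
  if pit t then ((t : ℝ) - 1) ^ 2 + ((t : ℝ) + h t - 3 / 2) * (1 + dl h g t) else (t : ℝ) ^ 2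

/-- adjacency of `i < j` -/
def Rel (pit : ℕ → Prop) (h g : ℕ → ℕ) (i j : ℕ) : Prop :=
  (¬ pit i ∧ ¬ pit j) ∨ (pit i ∧ ¬ pit j ∧ (j = i + 1 ∨ g i ≤ j)) ∨
    (¬ pit i ∧ pit j ∧ (i + 1 = j ∨ i < h j))

section

variable {n : ℕ} {pit : ℕ → Prop} {h g : ℕ → ℕ} (H : ChainData n pit h g)

theorem X_K {t : ℕ} (ht : ¬ pit t) : X pit h g t = t := by unfold X; rw [if_neg ht]
theorem Y_K {t : ℕ} (ht : ¬ pit t) : Y pit h g t = (t : ℝ) ^ 2 := by unfold Y; rw [if_neg ht]

include H

theorem dl_pos {t : ℕ} (ht : pit t) : 0 < (g t : ℝ) - h t + 2 := by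
  have h1 : (h t : ℝ) + 1 ≤ t := by exact_mod_cast H.h_le t ht
  have h2 : (t : ℝ) + 2 ≤ g t := by exact_mod_cast H.g_ge t t ht ht
  linarith

theorem X_pit {t : ℕ} (ht : pit t) : (t : ℝ) - 1 < X pit h g t ∧ X pit h g t < t + 1 := by
  have h1 : (h t : ℝ) + 1 ≤ t := by exact_mod_cast H.h_le t ht
  have h2 : (t : ℝ) + 2 ≤ g t := by exact_mod_cast H.g_ge t t ht ht
  have h3 := dl_pos H ht
  have e1 : -1 < dl h g t := by
    unfold dl; rw [lt_div_iff₀ h3]; linarith
  have e2 : dl h g t < 1 := by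
    unfold dl; rw [div_lt_iff₀ h3]; linarith
  unfold X; rw [if_pos ht]
  constructor <;> linarith

omit H in
theorem Y_left {t : ℕ} (ht : pit t) :
    Y pit h g t = ((t : ℝ) - 1) ^ 2 + ((t : ℝ) + h t - 3 / 2) * (X pit h g t - (t - 1)) := by
  unfold X Y; rw [if_pos ht, if_pos ht]; ring

theorem Y_right {t : ℕ} (ht : pit t) :
    Y pit h g t = ((t : ℝ) + 1) ^ 2 - ((t : ℝ) + g t + 1 / 2) * (t + 1 - X pit h g t) := by
  have h3 := (dl_pos H ht).ne'
  have h4 : dl h g t * ((g t : ℝ) - h t + 2) = (h t : ℝ) + g t - 1 - 2 * t := by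
    unfold dl; rw [div_mul_cancel₀ _ h3]
  unfold X Y; rw [if_pos ht, if_pos ht]
  linear_combination -h4

theorem Y_lt {t : ℕ} (ht : pit t) : Y pit h g t < X pit h g t ^ 2 := by
  have h1 : (h t : ℝ) + 1 ≤ t := by exact_mod_cast H.h_le t ht
  obtain ⟨e1, e2⟩ := X_pit H ht
  rw [Y_left ht]
  have : 0 < (X pit h g t - (t - 1)) * (X pit h g t + (t - 1) - ((t : ℝ) + h t - 3 / 2)) := by
    apply mul_pos <;> linarith
  nlinarith

theorem Y_le (t : ℕ) : Y pit h g t ≤ X pit h g t ^ 2 := by
  by_cases ht : pit t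
  · exact (Y_lt H ht).le
  · rw [X_K ht, Y_K ht]

theorem X_mono : StrictMono (X pit h g) := by
  apply strictMono_nat_of_lt_succ
  intro t
  by_cases ht : pit t
  · rw [X_K (H.next t ht)]
    have := (X_pit H ht).2
    push_cast; exact this
  · by_cases ht' : pit (t + 1)
    · rw [X_K ht]
      have := (X_pit H ht').1
      push_cast at this; linarith
    · rw [X_K ht, X_K ht']; push_cast; linarith

theorem det_neg {i j : ℕ} (hij : i < j) (hR : Rel pit h g i j) {m : ℕ} (him : i < m)
    (hmj : m < j) :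
    (Y pit h g m - Y pit h g i) * (X pit h g j - X pit h g i) -
      (Y pit h g j - Y pit h g i) * (X pit h g m - X pit h g i) < 0 := by
  have hX := X_mono H
  have x1 := hX him
  have x2 := hX hmj
  have x3 := hX hij
  have y1 := Y_le H m
  set z := X pit h g m with hz
  have c1 : (Y pit h g m - Y pit h g i) * (X pit h g j - X pit h g i) ≤
      (z ^ 2 - Y pit h g i) * (X pit h g j - X pit h g i) :=
    mul_le_mul_of_nonneg_right (by linarith) (by linarith)
  rcases hR with ⟨hi, hj⟩ | ⟨hi, hj, hR⟩ | ⟨hi, hj, hR⟩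
  · rw [X_K hi, X_K hj, Y_K hi, Y_K hj] at *
    have : 0 < ((j : ℝ) - i) * ((z - i) * (j - z)) := by
      apply mul_pos (by linarith); apply mul_pos <;> linarith
    nlinarith
  · rcases hR with hR | hR
    · omega
    have y2 := Y_right H hi
    obtain ⟨a1, a2⟩ := X_pit H hi
    set a := X pit h g i with ha
    set A := Y pit h g i with hA
    rw [X_K hj, Y_K hj] at *
    have hb : (i : ℝ) + 1 ≤ z := by
      have := hX.monotone (Nat.succ_le_of_lt him)
      rw [Nat.succ_eq_add_one, X_K (H.next i hi)] at this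
      push_cast at this; exact this
    have hg : (g i : ℝ) ≤ j := by exact_mod_cast hR
    have e1 : (z ^ 2 - A) * (j - a) - ((j : ℝ) ^ 2 - A) * (z - a) =
        -((j - z) * ((z - (i + 1)) * (j - a) + (i + 1 - a) * (i + 1 + j - (i + g i + 1 / 2)))) := by
      rw [y2]; ring
    have e2 : 0 < (i + 1 - a) * ((i : ℝ) + 1 + j - (i + g i + 1 / 2)) := by
      apply mul_pos <;> linarith
    have e3 : 0 ≤ (z - (i + 1)) * (j - a) := by apply mul_nonneg <;> linarith
    have e4 : 0 < (j - z) * ((z - (i + 1)) * (j - a) +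
        (i + 1 - a) * ((i : ℝ) + 1 + j - (i + g i + 1 / 2))) := by
      apply mul_pos <;> linarith
    linarith
  · rcases hR with hR | hR
    · omega
    have y2 := Y_left (h := h) (g := g) hj
    obtain ⟨a1, a2⟩ := X_pit H hj
    set c := X pit h g j with hc
    set C := Y pit h g j with hC
    rw [X_K hi, Y_K hi] at *
    obtain ⟨b, rfl⟩ : ∃ b, j = b + 1 := ⟨j - 1, by omega⟩
    have hbp : ¬ pit b := fun hb' => H.next b hb' hj
    have hb : z ≤ b := by
      have := hX.monotone (Nat.le_of_lt_succ hmj)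
      rw [X_K hbp] at this
      exact this
    push_cast at *
    have hh : (i : ℝ) + 1 ≤ h (b + 1) := by exact_mod_cast hR
    have e1 : (z ^ 2 - (i : ℝ) ^ 2) * (c - i) - (C - (i : ℝ) ^ 2) * (z - i) =
        -((z - i) * ((b - z) * (c - i) + (c - b) * ((b : ℝ) + h (b + 1) - 1 / 2 - (b + i)))) := by
      rw [y2]; ring
    have e2 : 0 < (c - b) * ((b : ℝ) + h (b + 1) - 1 / 2 - (b + i)) := by
      apply mul_pos <;> linarith
    have e3 : 0 ≤ (b - z) * (c - i) := by apply mul_nonneg <;> linarith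
    have e4 : 0 < (z - i) * ((b - z) * (c - i) +
        (c - b) * ((b : ℝ) + h (b + 1) - 1 / 2 - (b + i))) := by
      apply mul_pos <;> linarith
    linarith

theorem det_pos {i j : ℕ} (hij : i < j) (hR : ¬ Rel pit h g i j) : ∃ m, i < m ∧ m < j ∧
    0 < (Y pit h g m - Y pit h g i) * (X pit h g j - X pit h g i) -
      (Y pit h g j - Y pit h g i) * (X pit h g m - X pit h g i) := by
  have hX := X_mono H
  by_cases hi : pit i
  · -- the vertex after `i` blocks
    have hne : j ≠ i + 1 := by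
      rintro rfl
      exact hR (Or.inr (Or.inl ⟨hi, H.next i hi, Or.inl rfl⟩))
    refine ⟨i + 1, by omega, by omega, ?_⟩
    have y2 := Y_right H hi
    obtain ⟨a1, a2⟩ := X_pit H hi
    have yj := Y_le H j
    have x3 : X pit h g (i + 1) < X pit h g j := hX (by omega)
    rw [X_K (H.next i hi), Y_K (H.next i hi)] at *
    push_cast at *
    set a := X pit h g i with ha
    set A := Y pit h g i with hA
    set c := X pit h g j with hc
    have hβ : c + (i + 1) < (i : ℝ) + g i + 1 / 2 := by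
      by_cases hj : pit j
      · have h1 : (j : ℝ) + 2 ≤ g i := by exact_mod_cast H.g_ge i j hi hj
        have h2 := (X_pit H hj).2
        linarith
      · have h1 : j < g i := by
          by_contra hcon
          exact hR (Or.inr (Or.inl ⟨hi, hj, Or.inr (by omega)⟩))
        have h2 : (j : ℝ) + 1 ≤ g i := by exact_mod_cast h1
        rw [hc, X_K hj]
        linarith
    have e1 : (((i : ℝ) + 1) ^ 2 - A) * (c - a) - (Y pit h g j - A) * ((i : ℝ) + 1 - a) =
        (i + 1 - a) * ((c - (i + 1)) * ((i : ℝ) + g i + 1 / 2 - (c + (i + 1))) +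
          (c ^ 2 - Y pit h g j)) := by
      rw [y2]; ring
    rw [e1]
    apply mul_pos (by linarith)
    have e2 : 0 < (c - (i + 1)) * ((i : ℝ) + g i + 1 / 2 - (c + (i + 1))) := by
      apply mul_pos <;> linarith
    linarith
  · have hj : pit j := by
      by_contra hj
      exact hR (Or.inl ⟨hi, hj⟩)
    have hne : i + 1 ≠ j := by
      rintro rfl
      exact hR (Or.inr (Or.inr ⟨hi, hj, Or.inl rfl⟩))
    have hh : h j ≤ i := by
      by_contra hcon
      exact hR (Or.inr (Or.inr ⟨hi, hj, Or.inr (by omega)⟩))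
    obtain ⟨b, rfl⟩ : ∃ b, j = b + 1 := ⟨j - 1, by omega⟩
    have hbp : ¬ pit b := fun hb' => H.next b hb' hj
    refine ⟨b, by omega, by omega, ?_⟩
    have y2 := Y_left (h := h) (g := g) hj
    obtain ⟨a1, a2⟩ := X_pit H hj
    have x3 : X pit h g i < X pit h g b := hX (by omega)
    rw [X_K hi, Y_K hi, X_K hbp, Y_K hbp] at *
    push_cast at *
    set c := X pit h g (b + 1) with hc
    set C := Y pit h g (b + 1) with hC
    have hh' : (h (b + 1) : ℝ) ≤ i := by exact_mod_cast hh
    have e1 : ((b : ℝ) ^ 2 - (i : ℝ) ^ 2) * (c - i) - (C - (i : ℝ) ^ 2) * (b - i) =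
        (b - i) * ((c - b) * (b + i - ((b : ℝ) + h (b + 1) - 1 / 2))) := by
      rw [y2]; ring
    rw [e1]
    apply mul_pos (by linarith)
    apply mul_pos <;> linarith

end

/-- The polygon of a chain with pits. -/
theorem chain_polygon {M : ℕ} {pit : ℕ → Prop} {h g : ℕ → ℕ} (hM : 2 ≤ M)
    (H : ChainData (M + 1) pit h g) :
    ∃ (v : Fin (M + 1) → ℝ × ℝ) (P : Set (ℝ × ℝ)), IsSimplePolygon v P ∧ NoStraightAngle v ∧
      ∀ i j : Fin (M + 1), i < j → ((visGraph v P).Adj i j ↔ Rel pit h g i j) := by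
  set x := X pit h g with hx'
  set y : ℕ → ℝ := fun t => Y pit h g t - M * x t with hy'
  have hx : StrictMono x := X_mono H
  have hp0 : ¬ pit 0 := fun h0 => by have := H.one_le 0 h0; omega
  have hpM : ¬ pit M := fun h0 => by have := H.lt_n M h0; omega
  have h0 : y 0 = 0 := by
    simp only [hy', hx']
    rw [X_K hp0, Y_K hp0]; simp
  have h1 : y M = 0 := by
    simp only [hy', hx']
    rw [X_K hpM, Y_K hpM]; ring
  have hneg : ∀ i, 0 < i → i < M → y i < 0 := by
    intro i hi hiM
    have e1 : x 0 < x i := hx hi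
    have e2 : x i < x M := hx hiM
    have e0 : x 0 = 0 := by rw [hx', X_K hp0]; simp
    have e3 : x M = M := by rw [hx', X_K hpM]
    rw [e0] at e1
    rw [e3] at e2
    have e4 : Y pit h g i ≤ x i ^ 2 := Y_le H i
    have e5 : 0 < x i * (M - x i) := mul_pos e1 (by linarith)
    simp only [hy']
    nlinarith
  have hdet : ∀ i j m : ℕ, (y m - y i) * (x j - x i) - (y j - y i) * (x m - x i) =
      (Y pit h g m - Y pit h g i) * (X pit h g j - X pit h g i) -
      (Y pit h g j - Y pit h g i) * (X pit h g m - X pit h g i) := by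
    intro i j m
    simp only [hy', hx']; ring
  have hsimple := isSimple hx hneg h0 h1 hM
  refine ⟨vv x y M, PP x y M, hsimple, ?_, ?_⟩
  · intro i
    apply not_collinear_of_det
    have hroti : ∀ i : Fin (M + 1), (i : ℕ) < M →
        ((finRotate (M + 1) i : Fin (M + 1)) : ℕ) = i + 1 := by
      intro i hi
      rw [finRotate_apply, Fin.val_add_one_of_lt]
      rw [Fin.lt_def]; simpa using hi
    have hl : ∀ i : Fin (M + 1), (i : ℕ) = M → i = Fin.last M := by
      intro i hi; apply Fin.ext; rw [Fin.val_last]; exact hi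
    rcases Nat.lt_or_ge (i + 1) M with h2 | h2
    · have e1 := hroti i (by omega)
      have e2 := hroti (finRotate (M + 1) i) (by omega)
      have e3 : vv x y M (finRotate (M + 1) i) = (x (i + 1), y (i + 1)) := by
        unfold vv; rw [e1]
      have e4 : vv x y M (finRotate (M + 1) (finRotate (M + 1) i)) =
          (x (i + 1 + 1), y (i + 1 + 1)) := by
        unfold vv; rw [e2, e1]
      rw [e3, e4]
      change (y (i + 1) - y i) * (x (i + 1 + 1) - x i) -
        (y (i + 1 + 1) - y i) * (x (i + 1) - x i) ≠ 0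
      rw [hdet]
      by_cases hR : Rel pit h g (i : ℕ) (i + 1 + 1)
      · exact (det_neg H (by omega) hR (by omega) (by omega)).ne
      · obtain ⟨m, m1, m2, m3⟩ := det_pos H (by omega) hR
        obtain rfl : m = i + 1 := by omega
        exact m3.ne'
    rcases Nat.lt_or_ge i M with h3 | h3
    · have e1 : finRotate (M + 1) i = Fin.last M := hl _ (by rw [hroti i h3]; omega)
      rw [e1, finRotate_last]
      have hneg' := hneg i (by omega) h3
      have e5 : vv x y M (Fin.last M) = (x M, 0) := by simp [vv, h1]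
      have e6 : vv x y M 0 = (x 0, 0) := by simp [vv, h0]
      rw [e5, e6]
      change (0 - y i) * (x 0 - x i) - (0 - y i) * (x M - x i) ≠ 0
      have e7 : (0 - y i) * (x 0 - x i) - (0 - y i) * (x M - x i) = (y i) * (x M - x 0) := by ring
      rw [e7]
      have : x 0 < x M := hx (by omega)
      exact mul_ne_zero hneg'.ne (sub_pos.2 this).ne'
    · have e0 : i = Fin.last M := hl i (by have := i.2; omega)
      subst e0
      rw [finRotate_last]
      have e1 : ((finRotate (M + 1) (0 : Fin (M + 1)) : Fin (M + 1)) : ℕ) = 1 := by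
        rw [hroti 0 (by simp; omega)]; simp
      have e4 : vv x y M (finRotate (M + 1) 0) = (x 1, y 1) := by unfold vv; rw [e1]
      have e5 : vv x y M (Fin.last M) = (x M, 0) := by simp [vv, h1]
      have e6 : vv x y M 0 = (x 0, 0) := by simp [vv, h0]
      rw [e4, e5, e6]
      change (0 - 0) * (x 1 - x M) - (y 1 - 0) * (x 0 - x M) ≠ 0
      have hneg' := hneg 1 one_pos (by omega)
      have e7 : (0 - 0) * (x 1 - x M) - (y 1 - 0) * (x 0 - x M) = y 1 * (x M - x 0) := by ring
      rw [e7]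
      have : x 0 < x M := hx (by omega)
      exact mul_ne_zero hneg'.ne (sub_pos.2 this).ne'
  · intro i j hij
    have hij' : (i : ℕ) < j := hij
    have e1 : (visGraph (vv x y M) (PP x y M)).Adj i j ↔
        segment ℝ (vv x y M i) (vv x y M j) ⊆ PP x y M :=
      ⟨fun h => h.2, fun h => ⟨hij.ne, h⟩⟩
    rw [e1, visible_iff hx hneg h0 h1 hM hij']
    constructor
    · intro hall
      by_contra hR
      obtain ⟨m, m1, m2, m3⟩ := det_pos H hij' hR
      have := hall m m1 m2
      rw [← hdet] at m3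
      linarith
    · intro hR m m1 m2
      have := det_neg H hij' hR m1 m2
      rw [← hdet] at this
      linarith

end Run7.h196.Vis
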