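import Pool.Agent.Run7.h196.Vis.Chain

/-!
# Reading off the parameters from the isomorphism class
-/

namespace Run7.h196.Vis

open Set Vis124

section

variable (c k : ℕ) (f : ℕ → ℕ)

/-- positions of the pits -/
def pitF (t : ℕ) : Prop := c < t ∧ t < c + 2 * (2 * k + 3) ∧ (t - c) % 2 = 1

instance : DecidablePred (pitF c k) := fun t => by unfold pitF; infer_instance

/-- what a pit sees on the left -/
def hF (t : ℕ) : ℕ := if (t - c) / 2 < k then (t - c) / 2 else 0

/-- what a pit sees on the right -/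
def gF (t : ℕ) : ℕ := if (t - c) / 2 < k then c + 5 * k + 8 - f ((t - c) / 2) else c + 4 * k + 7

variable {c k f}

theorem chainData (hck : k ≤ c) (hf : ∀ i, f i ≤ k) :
    ChainData (c + 5 * k + 7 + 1) (pitF c k) (hF c k) (gF c k f) := by
  refine ⟨?_, ?_, ?_, ?_, ?_⟩
  · intro t ht; unfold pitF at ht; omega
  · intro t ht; unfold pitF at ht; omega
  · intro t ht; unfold pitF at *; omega
  · intro t ht; unfold pitF hF at *; split_ifs <;> omega
  · intro t t' ht ht'
    have := hf ((t - c) / 2)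
    unfold pitF gF at *; split_ifs <;> omega

variable (c k f)

/-- adjacency, as a relation on positions -/
def Adj' (i j : ℕ) : Prop :=
  (i < j ∧ Rel (pitF c k) (hF c k) (gF c k f) i j) ∨
    (j < i ∧ Rel (pitF c k) (hF c k) (gF c k f) j i)

variable {c k f}

theorem adj_pit_iff (hck : k ≤ c) (hf : ∀ i, f i ≤ k) {v w : ℕ} (hv : pitF c k v)
    (hw : w < c + 5 * k + 8) : Adj' c k f v w ↔
      (gF c k f v ≤ w ∨ w = v + 1 ∨ w + 1 = v ∨ w < hF c k v) := by
  have hfv := hf ((v - c) / 2)
  unfold Adj' Rel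
  constructor
  · rintro (⟨h1, h2⟩ | ⟨h1, h2⟩)
    · rcases h2 with ⟨h3, -⟩ | ⟨-, -, h3⟩ | ⟨h3, -⟩
      · exact absurd hv h3
      · tauto
      · exact absurd hv h3
    · rcases h2 with ⟨-, h3⟩ | ⟨-, h3, -⟩ | ⟨-, -, h3⟩
      · exact absurd hv h3
      · exact absurd hv h3
      · tauto
  · have hg : c + 4 * k + 7 ≤ gF c k f v := by unfold gF; split_ifs <;> omega
    have hh : hF c k v ≤ k ∧ hF c k v + 1 ≤ v := by
      unfold hF pitF at *; split_ifs <;> omega
    rintro (h | h | h | h)
    · left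
      refine ⟨by unfold pitF at hv; omega, Or.inr (Or.inl ⟨hv, ?_, Or.inr h⟩)⟩
      unfold pitF; omega
    · left
      refine ⟨by omega, Or.inr (Or.inl ⟨hv, ?_, Or.inl h⟩)⟩
      unfold pitF at *; omega
    · right
      refine ⟨by omega, Or.inr (Or.inr ⟨?_, hv, Or.inl h⟩)⟩
      unfold pitF at *; omega
    · right
      refine ⟨by omega, Or.inr (Or.inr ⟨?_, hv, Or.inr h⟩)⟩
      unfold pitF at *; omega

theorem adj_K {v w : ℕ} (hv : ¬ pitF c k v) (hw : ¬ pitF c k w) : Adj' c k f v w ↔ v ≠ w := by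
  unfold Adj' Rel
  constructor
  · rintro (⟨h, -⟩ | ⟨h, -⟩) <;> omega
  · intro h
    rcases lt_or_gt_of_ne h with h | h
    · exact Or.inl ⟨h, Or.inl ⟨hv, hw⟩⟩
    · exact Or.inr ⟨h, Or.inl ⟨hw, hv⟩⟩

theorem adj_symm {v w : ℕ} : Adj' c k f v w ↔ Adj' c k f w v := by
  unfold Adj'; tauto

open Classical in
/-- degree -/
noncomputable def dN (c k : ℕ) (f : ℕ → ℕ) (v : ℕ) : ℕ :=
  ((Finset.range (c + 5 * k + 8)).filter (fun w => Adj' c k f v w)).card

/-- the number of vertices that are not pits -/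
def kap (c k : ℕ) : ℕ := ((Finset.range (c + 5 * k + 8)).filter (fun w => ¬ pitF c k w)).card

theorem kap_ge : c + 3 * k + 5 ≤ kap c k := by
  have h1 := Finset.card_filter_add_card_filter_not (s := Finset.range (c + 5 * k + 8))
    (fun w => pitF c k w)
  rw [Finset.card_range] at h1
  have h2 : ((Finset.range (c + 5 * k + 8)).filter (fun w => pitF c k w)) ⊆
      (Finset.range (2 * k + 3)).image (fun i => c + 2 * i + 1) := by
    intro t ht
    rw [Finset.mem_filter] at ht
    rw [Finset.mem_image]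
    have h3 := ht.2
    unfold pitF at h3
    exact ⟨(t - c) / 2, by rw [Finset.mem_range]; omega, by omega⟩
  have h3 := (Finset.card_le_card h2).trans Finset.card_image_le
  rw [Finset.card_range] at h3
  unfold kap
  omega

theorem dN_K_ge {v : ℕ} (hv : ¬ pitF c k v) (hvn : v < c + 5 * k + 8) :
    kap c k ≤ dN c k f v + 1 := by
  classical
  have h1 : ((Finset.range (c + 5 * k + 8)).filter (fun w => ¬ pitF c k w)) ⊆
      insert v ((Finset.range (c + 5 * k + 8)).filter (fun w => Adj' c k f v w)) := by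
    intro w hw
    rw [Finset.mem_filter] at hw
    rw [Finset.mem_insert]
    by_cases h : w = v
    · exact Or.inl h
    · right
      rw [Finset.mem_filter]
      exact ⟨hw.1, (adj_K hv hw.2).2 (Ne.symm h)⟩
  have h2 := (Finset.card_le_card h1).trans (Finset.card_insert_le _ _)
  unfold kap dN
  exact h2

theorem dN_target_ge (hck : k ≤ c) (hf : ∀ i, f i ≤ k) {v : ℕ} (hv : c + 4 * k + 7 ≤ v)
    (hvn : v < c + 5 * k + 8) : kap c k + k + 2 ≤ dN c k f v := by
  classical
  have hvK : ¬ pitF c k v := by unfold pitF; omega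
  have h1 : ((Finset.range (c + 5 * k + 8)).filter (fun w => ¬ pitF c k w)) ∪
      (Finset.range (k + 3)).image (fun i => c + 2 * (k + i) + 1) ⊆
      insert v ((Finset.range (c + 5 * k + 8)).filter (fun w => Adj' c k f v w)) := by
    intro w hw
    rw [Finset.mem_union, Finset.mem_filter, Finset.mem_image] at hw
    rw [Finset.mem_insert, Finset.mem_filter]
    rcases hw with hw | ⟨i, hi, rfl⟩
    · by_cases h : w = v
      · exact Or.inl h
      · exact Or.inr ⟨hw.1, (adj_K hvK hw.2).2 (Ne.symm h)⟩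
    · right
      rw [Finset.mem_range] at hi
      rw [Finset.mem_range]
      refine ⟨by omega, ?_⟩
      have hp : pitF c k (c + 2 * (k + i) + 1) := by unfold pitF; omega
      rw [adj_symm, adj_pit_iff hck hf hp hvn]
      left
      unfold gF
      rw [if_neg (by omega)]
      exact hv
  have h2 : Disjoint ((Finset.range (c + 5 * k + 8)).filter (fun w => ¬ pitF c k w))
      ((Finset.range (k + 3)).image (fun i => c + 2 * (k + i) + 1)) := by
    rw [Finset.disjoint_left]
    intro w hw hw'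
    rw [Finset.mem_filter] at hw
    rw [Finset.mem_image] at hw'
    obtain ⟨i, hi, rfl⟩ := hw'
    rw [Finset.mem_range] at hi
    apply hw.2
    unfold pitF; omega
  have h3 := (Finset.card_le_card h1).trans (Finset.card_insert_le _ _)
  rw [Finset.card_union_of_disjoint h2, Finset.card_image_of_injective _
    (fun a b (hab : c + 2 * (k + a) + 1 = c + 2 * (k + b) + 1) => by omega), Finset.card_range] at h3
  unfold kap dN
  omega

theorem dN_nontarget_lt (hck : k ≤ c) (hf : ∀ i, f i ≤ k) {v : ℕ} (hvK : ¬ pitF c k v)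
    (hv : v < c + 4 * k + 7) : dN c k f v < kap c k + k + 2 := by
  classical
  have h1 : ((Finset.range (c + 5 * k + 8)).filter (fun w => Adj' c k f v w)) ⊆
      (((Finset.range (c + 5 * k + 8)).filter (fun w => ¬ pitF c k w)).erase v) ∪
      (insert (v - 1) (insert (v + 1) ((Finset.range k).image (fun i => c + 2 * i + 1)))) := by
    intro w hw
    rw [Finset.mem_filter, Finset.mem_range] at hw
    rw [Finset.mem_union, Finset.mem_erase, Finset.mem_filter, Finset.mem_range,
      Finset.mem_insert, Finset.mem_insert, Finset.mem_image]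
    by_cases hp : pitF c k w
    · right
      have h2 := hw.2
      rw [adj_symm, adj_pit_iff hck hf hp (by omega)] at h2
      rcases h2 with h2 | h2 | h2 | h2
      · exfalso
        have := hf ((w - c) / 2)
        unfold gF at h2
        split_ifs at h2 <;> omega
      · left; omega
      · right; left; omega
      · right; right
        unfold hF at h2
        split_ifs at h2 with h3
        · unfold pitF at hp
          exact ⟨(w - c) / 2, by rw [Finset.mem_range]; exact h3, by omega⟩
        · omega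
    · left
      have h2 := (adj_K hvK hp).1 hw.2
      exact ⟨Ne.symm h2, hw.1, hp⟩
  have h2 := (Finset.card_le_card h1).trans (Finset.card_union_le _ _)
  have h3 : v ∈ (Finset.range (c + 5 * k + 8)).filter (fun w => ¬ pitF c k w) := by
    rw [Finset.mem_filter, Finset.mem_range]; exact ⟨by omega, hvK⟩
  rw [Finset.card_erase_of_mem h3] at h2
  have h4 : (insert (v - 1) (insert (v + 1)
      ((Finset.range k).image (fun i => c + 2 * i + 1)))).card ≤ k + 2 := by
    refine (Finset.card_insert_le _ _).trans ?_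
    have h5 := Finset.card_insert_le (v + 1) ((Finset.range k).image (fun i => c + 2 * i + 1))
    have h6 : ((Finset.range k).image (fun i => c + 2 * i + 1)).card ≤ k := by
      refine Finset.card_image_le.trans ?_
      rw [Finset.card_range]
    omega
  have h5 : 0 < ((Finset.range (c + 5 * k + 8)).filter (fun w => ¬ pitF c k w)).card :=
    Finset.card_pos.2 ⟨v, h3⟩
  unfold kap dN
  omega

theorem target_iff (hck : k ≤ c) (hf : ∀ i, f i ≤ k) {v : ℕ} (hvK : ¬ pitF c k v)
    (hvn : v < c + 5 * k + 8) : kap c k + k + 2 ≤ dN c k f v ↔ c + 4 * k + 7 ≤ v := by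
  constructor
  · intro h
    by_contra hc
    have := dN_nontarget_lt hck hf hvK (by omega)
    omega
  · intro h
    exact dN_target_ge hck hf h hvn

theorem adj_pit_K (hck : k ≤ c) (hf : ∀ i, f i ≤ k) {v w : ℕ} (hv : pitF c k v)
    (hw : w < c + 5 * k + 8) (h : Adj' c k f v w) : ¬ pitF c k w := by
  rw [adj_pit_iff hck hf hv hw] at h
  intro hp
  have hfv := hf ((v - c) / 2)
  unfold gF hF pitF at *
  split_ifs at h <;> omega

/-- high neighbours of a pit -/
theorem hi_pit (hck : k ≤ c) (hf : ∀ i, f i ≤ k) {v : ℕ} (hv : pitF c k v) (w : ℕ)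
    (hw : w < c + 5 * k + 8) :
    (Adj' c k f v w ∧ kap c k + k + 2 ≤ dN c k f w) ↔ gF c k f v ≤ w := by
  have hfv := hf ((v - c) / 2)
  constructor
  · rintro ⟨h1, h2⟩
    rw [target_iff hck hf (adj_pit_K hck hf hv hw h1) hw] at h2
    rw [adj_pit_iff hck hf hv hw] at h1
    rcases h1 with h1 | h1 | h1 | h1
    · exact h1
    · unfold pitF at hv; omega
    · unfold pitF at hv; omega
    · exfalso
      unfold pitF hF at *; split_ifs at h1 <;> omega
  · intro h
    have h1 : Adj' c k f v w := (adj_pit_iff hck hf hv hw).2 (Or.inl h)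
    refine ⟨h1, ?_⟩
    rw [target_iff hck hf (adj_pit_K hck hf hv hw h1) hw]
    unfold gF at h
    split_ifs at h <;> omega

/-- low neighbours of a pit -/
theorem lo_pit (hck : k ≤ c) (hf : ∀ i, f i ≤ k) {v : ℕ} (hv : pitF c k v) (w : ℕ)
    (hw : w < c + 5 * k + 8) :
    (Adj' c k f v w ∧ dN c k f w < kap c k + k + 2) ↔ (w = v + 1 ∨ w + 1 = v ∨ w < hF c k v) := by
  have hfv := hf ((v - c) / 2)
  constructor
  · rintro ⟨h1, h2⟩
    have h3 := h1
    rw [adj_pit_iff hck hf hv hw] at h1
    rcases h1 with h1 | h1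
    · exfalso
      have := (hi_pit hck hf hv w hw).2 h1
      omega
    · exact h1
  · intro h
    have h1 : Adj' c k f v w := (adj_pit_iff hck hf hv hw).2 (Or.inr h)
    refine ⟨h1, ?_⟩
    by_contra h2
    have h3 := (hi_pit hck hf hv w hw).1 ⟨h1, by omega⟩
    unfold gF hF pitF at *
    split_ifs at * <;> omega

end

/-! ### Graph invariants -/

section

open Classical in
/-- degree -/
noncomputable def dg {n : ℕ} (G : SimpleGraph (Fin n)) (v : Fin n) : ℕ :=
  (Finset.univ.filter (fun w => G.Adj v w)).card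

open Classical in
/-- number of neighbours of large degree -/
noncomputable def hi {n : ℕ} (D : ℕ) (G : SimpleGraph (Fin n)) (v : Fin n) : ℕ :=
  (Finset.univ.filter (fun w => G.Adj v w ∧ D ≤ dg G w)).card

open Classical in
/-- number of neighbours of small degree -/
noncomputable def lo {n : ℕ} (D : ℕ) (G : SimpleGraph (Fin n)) (v : Fin n) : ℕ :=
  (Finset.univ.filter (fun w => G.Adj v w ∧ dg G w < D)).card

variable {n : ℕ} {G G' : SimpleGraph (Fin n)} (e : G ≃g G')

theorem card_filter_equiv {α : Type*} [Fintype α] (e : α ≃ α) (p q : α → Prop)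
    [DecidablePred p] [DecidablePred q] (h : ∀ a, p a ↔ q (e a)) :
    (Finset.univ.filter p).card = (Finset.univ.filter q).card := by
  apply Finset.card_bij (fun a _ => e a)
  · intro a ha
    rw [Finset.mem_filter] at *
    exact ⟨Finset.mem_univ _, (h a).1 ha.2⟩
  · intro a _ b _ hab
    exact e.injective hab
  · intro b hb
    rw [Finset.mem_filter] at hb
    refine ⟨e.symm b, ?_, e.apply_symm_apply b⟩
    rw [Finset.mem_filter]
    exact ⟨Finset.mem_univ _, (h _).2 (by rw [e.apply_symm_apply]; exact hb.2)⟩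

include e

theorem dg_iso (v : Fin n) : dg G v = dg G' (e v) := by
  classical
  unfold dg
  apply card_filter_equiv e.toEquiv
  intro a
  exact (e.map_adj_iff).symm

theorem hi_iso (D : ℕ) (v : Fin n) : hi D G v = hi D G' (e v) := by
  classical
  unfold hi
  apply card_filter_equiv e.toEquiv
  intro a
  have h1 : G.Adj v a ↔ G'.Adj (e v) (e.toEquiv a) := (e.map_adj_iff).symm
  have h2 : dg G a = dg G' (e.toEquiv a) := dg_iso e a
  rw [h1, h2]

theorem lo_iso (D : ℕ) (v : Fin n) : lo D G v = lo D G' (e v) := by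
  classical
  unfold lo
  apply card_filter_equiv e.toEquiv
  intro a
  have h1 : G.Adj v a ↔ G'.Adj (e v) (e.toEquiv a) := (e.map_adj_iff).symm
  have h2 : dg G a = dg G' (e.toEquiv a) := dg_iso e a
  rw [h1, h2]

end

theorem card_fin_filter (n : ℕ) (p : ℕ → Prop) [DecidablePred p] :
    (Finset.univ.filter (fun w : Fin n => p w)).card = ((Finset.range n).filter p).card := by
  rw [← Finset.card_map Fin.valEmbedding]
  congr 1
  ext t
  simp only [Finset.mem_map, Finset.mem_filter, Finset.mem_univ, true_and, Finset.mem_range,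
    Fin.valEmbedding_apply]
  constructor
  · rintro ⟨a, ha, rfl⟩; exact ⟨a.2, ha⟩
  · rintro ⟨h1, h2⟩; exact ⟨⟨t, h1⟩, h2, rfl⟩

section

variable {c k : ℕ} {f : ℕ → ℕ} {G : SimpleGraph (Fin (c + 5 * k + 7 + 1))}
  (hG : ∀ v w : Fin (c + 5 * k + 7 + 1), v < w →
    (G.Adj v w ↔ Rel (pitF c k) (hF c k) (gF c k f) v w))
include hG

theorem adj_iff' (v w : Fin (c + 5 * k + 7 + 1)) : G.Adj v w ↔ Adj' c k f v w := by
  unfold Adj'
  constructor
  · intro h
    rcases lt_or_gt_of_ne h.ne with h' | h'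
    · exact Or.inl ⟨h', (hG v w h').1 h⟩
    · exact Or.inr ⟨h', (hG w v h').1 h.symm⟩
  · rintro (⟨h1, h2⟩ | ⟨h1, h2⟩)
    · exact (hG v w h1).2 h2
    · exact ((hG w v h1).2 h2).symm

theorem dg_eq (v : Fin (c + 5 * k + 7 + 1)) : dg G v = dN c k f v := by
  classical
  unfold dg dN
  rw [← card_fin_filter (c + 5 * k + 7 + 1) (fun w => Adj' c k f v w)]
  congr 1
  apply Finset.filter_congr
  intro w _
  exact adj_iff' hG v w

theorem hi_eq (hck : k ≤ c) (hf : ∀ i, f i ≤ k) (v : Fin (c + 5 * k + 7 + 1))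
    (hv : pitF c k v) : hi (kap c k + k + 2) G v = c + 5 * k + 8 - gF c k f v := by
  classical
  unfold hi
  have h1 : (Finset.univ.filter (fun w => G.Adj v w ∧ kap c k + k + 2 ≤ dg G w)) =
      (Finset.univ.filter (fun w : Fin (c + 5 * k + 7 + 1) => gF c k f v ≤ (w : ℕ))) := by
    apply Finset.filter_congr
    intro w _
    rw [adj_iff' hG v w, dg_eq hG w]
    exact hi_pit hck hf hv w w.2
  rw [h1, card_fin_filter (c + 5 * k + 7 + 1) (fun w => gF c k f v ≤ w)]
  have h2 : (Finset.range (c + 5 * k + 7 + 1)).filter (fun w => gF c k f v ≤ w) =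
      Finset.Ico (gF c k f v) (c + 5 * k + 8) := by
    ext t
    simp only [Finset.mem_filter, Finset.mem_range, Finset.mem_Ico]
    omega
  rw [h2, Nat.card_Ico]

theorem lo_eq (hck : k ≤ c) (hf : ∀ i, f i ≤ k) (v : Fin (c + 5 * k + 7 + 1))
    (hv : pitF c k v) : lo (kap c k + k + 2) G v = hF c k v + 2 := by
  classical
  unfold lo
  have h1 : (Finset.univ.filter (fun w => G.Adj v w ∧ dg G w < kap c k + k + 2)) =
      (Finset.univ.filter (fun w : Fin (c + 5 * k + 7 + 1) =>
        ((w : ℕ) = v + 1 ∨ (w : ℕ) + 1 = v ∨ (w : ℕ) < hF c k v))) := by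
    apply Finset.filter_congr
    intro w _
    rw [adj_iff' hG v w, dg_eq hG w]
    exact lo_pit hck hf hv w w.2
  rw [h1, card_fin_filter (c + 5 * k + 7 + 1)
    (fun w : ℕ => (w = (v : ℕ) + 1 ∨ w + 1 = (v : ℕ) ∨ w < hF c k v))]
  have hh : hF c k v + 1 ≤ v ∧ (v : ℕ) + 1 < c + 5 * k + 8 := by
    unfold hF pitF at *; split_ifs <;> omega
  have h2 : (Finset.range (c + 5 * k + 7 + 1)).filter
      (fun w : ℕ => (w = (v : ℕ) + 1 ∨ w + 1 = (v : ℕ) ∨ w < hF c k v)) =
      insert ((v : ℕ) + 1) (insert ((v : ℕ) - 1) (Finset.range (hF c k v))) := by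
    ext t
    simp only [Finset.mem_filter, Finset.mem_range, Finset.mem_insert]
    omega
  rw [h2, Finset.card_insert_of_notMem, Finset.card_insert_of_notMem, Finset.card_range]
  · rw [Finset.mem_range]; omega
  · rw [Finset.mem_insert, Finset.mem_range]; omega

omit hG in
theorem dg_add (D : ℕ) (v : Fin (c + 5 * k + 7 + 1)) : hi D G v + lo D G v = dg G v := by
  classical
  unfold hi lo
  have h1 := Finset.card_filter_add_card_filter_not
    (s := Finset.univ.filter (fun w => G.Adj v w)) (fun w => D ≤ dg G w)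
  rw [Finset.filter_filter, Finset.filter_filter] at h1
  simp only [not_le] at h1
  exact h1

theorem pit_iff_dg (hck : k ≤ c) (hf : ∀ i, f i ≤ k) (v : Fin (c + 5 * k + 7 + 1)) :
    pitF c k v ↔ dg G v + 1 < kap c k := by
  have hk := kap_ge (c := c) (k := k)
  constructor
  · intro hv
    rw [← dg_add (kap c k + k + 2) v, hi_eq hG hck hf v hv, lo_eq hG hck hf v hv]
    have hfv := hf ((v - c) / 2)
    unfold gF hF
    split_ifs <;> omega
  · intro h
    by_contra hv
    have := dN_K_ge (f := f) hv v.2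
    rw [← dg_eq hG v] at this
    omega

end

theorem decode {c k : ℕ} {f f' : ℕ → ℕ} {G G' : SimpleGraph (Fin (c + 5 * k + 7 + 1))}
    (hck : k ≤ c) (hf : ∀ i, f i ≤ k) (hf' : ∀ i, f' i ≤ k)
    (hG : ∀ v w : Fin (c + 5 * k + 7 + 1), v < w →
      (G.Adj v w ↔ Rel (pitF c k) (hF c k) (gF c k f) v w))
    (hG' : ∀ v w : Fin (c + 5 * k + 7 + 1), v < w →
      (G'.Adj v w ↔ Rel (pitF c k) (hF c k) (gF c k f') v w))
    (e : G ≃g G') {i : ℕ} (hi' : i < k) : f i = f' i := by
  set v : Fin (c + 5 * k + 7 + 1) := ⟨c + 2 * i + 1, by omega⟩ with hv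
  have hvp : pitF c k v := by unfold pitF; simp only [hv]; omega
  have h1 := (pit_iff_dg hG hck hf v).1 hvp
  rw [dg_iso e] at h1
  have h2 := (pit_iff_dg hG' hck hf' (e v)).2 h1
  have h3 := hi_iso e (kap c k + k + 2) v
  have h4 := lo_iso e (kap c k + k + 2) v
  rw [hi_eq hG hck hf v hvp, hi_eq hG' hck hf' _ h2] at h3
  rw [lo_eq hG hck hf v hvp, lo_eq hG' hck hf' _ h2] at h4
  have e1 : ((v : ℕ) - c) / 2 = i := by simp only [hv]; omega
  have f1 := hf i
  have f2 := hf' (((e v : Fin (c + 5 * k + 7 + 1)) - c) / 2)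
  unfold gF at h3
  unfold hF at h4
  rw [e1] at h3 h4
  rw [if_pos hi'] at h3 h4
  split_ifs at h3 h4 with h5
  · have h6 : i = ((e v : Fin (c + 5 * k + 7 + 1)) - c) / 2 := by omega
    rw [← h6] at h3 f2
    omega
  · omega

end Run7.h196.Vis
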