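import Pool.Agent.H124R2.Vis.Defs

/-!
# Polygons bounded by a chord and an `x`-monotone chain below it
-/

namespace Run7.h196.Vis

open Set Vis124

theorem seg_graph {a b c d : ℝ} (h : a < c) (p : ℝ × ℝ) :
    p ∈ segment ℝ (a, b) (c, d) ↔
      a ≤ p.1 ∧ p.1 ≤ c ∧ p.2 = b + (d - b) / (c - a) * (p.1 - a) := by
  have hca : 0 < c - a := sub_pos.2 h
  rw [segment_eq_image']
  simp only [mem_image, mem_Icc]
  constructor
  · rintro ⟨t, ⟨h1, h2⟩, rfl⟩
    simp only [Prod.mk_sub_mk, Prod.smul_mk, smul_eq_mul, Prod.mk_add_mk]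
    refine ⟨by nlinarith, by nlinarith, ?_⟩
    field_simp
    ring
  · rintro ⟨h1, h2, h3⟩
    refine ⟨(p.1 - a) / (c - a), ⟨by apply div_nonneg <;> linarith, by
      rw [div_le_one hca]; linarith⟩, ?_⟩
    ext
    · simp only [Prod.mk_sub_mk, Prod.smul_mk, smul_eq_mul, Prod.mk_add_mk]
      field_simp
      ring
    · simp only [Prod.mk_sub_mk, Prod.smul_mk, smul_eq_mul, Prod.mk_add_mk]
      rw [h3]; field_simp

variable (x y : ℕ → ℝ)

/-- slope of the `i`-th segment -/
noncomputable def sl (i : ℕ) : ℝ := (y (i + 1) - y i) / (x (i + 1) - x i)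

/-- the piecewise linear interpolation -/
noncomputable def gg (M : ℕ) (t : ℝ) : ℝ :=
  y 0 + ∑ i ∈ Finset.range M, sl x y i * (min (max t (x i)) (x (i + 1)) - x i)

theorem gg_cont (M : ℕ) : Continuous (gg x y M) := by unfold gg; fun_prop

variable {x y}

theorem gg_eq (hx : StrictMono x) {M k : ℕ} (hk : k < M) {t : ℝ} (h1 : x k ≤ t)
    (h2 : t ≤ x (k + 1)) : gg x y M t = y k + sl x y k * (t - x k) := by
  have hlow : ∀ j, j ≤ k →
      y 0 + ∑ i ∈ Finset.range j, sl x y i * (min (max t (x i)) (x (i + 1)) - x i) = y j := by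
    intro j
    induction j with
    | zero => simp
    | succ j ih =>
      intro hj
      rw [Finset.sum_range_succ, ← add_assoc, ih (by omega)]
      have e1 : x (j + 1) ≤ t := le_trans (hx.monotone hj) h1
      have e2 : x j < x (j + 1) := hx (Nat.lt_succ_self j)
      rw [max_eq_left (by linarith), min_eq_right e1]
      unfold sl
      have : x (j + 1) - x j ≠ 0 := (sub_pos.2 e2).ne'
      field_simp
      ring
  have hup : ∀ j, y 0 + ∑ i ∈ Finset.range (k + 1 + j),
      sl x y i * (min (max t (x i)) (x (i + 1)) - x i) = y k + sl x y k * (t - x k) := by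
    intro j
    induction j with
    | zero =>
      rw [add_zero, Finset.sum_range_succ, ← add_assoc, hlow k le_rfl, max_eq_left h1,
        min_eq_left h2]
    | succ j ih =>
      rw [← add_assoc, Finset.sum_range_succ, ← add_assoc, ih]
      have e1 : t ≤ x (k + 1 + j) := le_trans h2 (hx.monotone (by omega))
      have e2 : x (k + 1 + j) ≤ x (k + 1 + j + 1) := hx.monotone (by omega)
      rw [max_eq_right e1, min_eq_left e2]; ring
  have h3 := hup (M - (k + 1))
  rw [Nat.add_sub_cancel' (by omega : k + 1 ≤ M)] at h3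
  exact h3

theorem gg_node (hx : StrictMono x) {M k : ℕ} (hM : 0 < M) (hk : k ≤ M) :
    gg x y M (x k) = y k := by
  rcases Nat.lt_or_ge k M with h | h
  · rw [gg_eq hx h le_rfl (hx.monotone (by omega))]; ring
  · obtain rfl : k = M := le_antisymm hk h
    obtain ⟨j, rfl⟩ : ∃ j, k = j + 1 := ⟨k - 1, by omega⟩
    rw [gg_eq hx (Nat.lt_succ_self j) (hx.monotone (by omega)) le_rfl]
    unfold sl
    have : x (j + 1) - x j ≠ 0 := (sub_pos.2 (hx (Nat.lt_succ_self j))).ne'
    field_simp
    ring

theorem exists_cell {i j : ℕ} (hij : i < j) {t : ℝ} (h1 : x i ≤ t) (h2 : t ≤ x j) :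
    ∃ k, i ≤ k ∧ k < j ∧ x k ≤ t ∧ t ≤ x (k + 1) := by
  induction j, hij using Nat.le_induction with
  | base => exact ⟨i, le_rfl, Nat.lt_succ_self i, h1, h2⟩
  | succ j hj ih =>
    rcases le_total t (x j) with h3 | h3
    · obtain ⟨k, a, b, c, d⟩ := ih h3
      exact ⟨k, a, by omega, c, d⟩
    · exact ⟨j, by omega, Nat.lt_succ_self j, h3, h2⟩

/-- the vertices -/
def vv (x y : ℕ → ℝ) (M : ℕ) (i : Fin (M + 1)) : ℝ × ℝ := (x i, y i)

/-- the polygon -/
def PP (x y : ℕ → ℝ) (M : ℕ) : Set (ℝ × ℝ) :=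
  {p | x 0 ≤ p.1 ∧ p.1 ≤ x M ∧ gg x y M p.1 ≤ p.2 ∧ p.2 ≤ 0}

/-- the interior -/
def UU (x y : ℕ → ℝ) (M : ℕ) : Set (ℝ × ℝ) :=
  {p | x 0 < p.1 ∧ p.1 < x M ∧ gg x y M p.1 < p.2 ∧ p.2 < 0}

theorem edge_lt (hx : StrictMono x) {M : ℕ} (i : Fin (M + 1)) (hi : (i : ℕ) < M) (p : ℝ × ℝ) :
    p ∈ edge (vv x y M) i ↔
      x i ≤ p.1 ∧ p.1 ≤ x (i + 1) ∧ p.2 = y i + sl x y i * (p.1 - x i) := by
  have h1 : ((finRotate (M + 1) i : Fin (M + 1)) : ℕ) = i + 1 := by
    rw [finRotate_apply, Fin.val_add_one_of_lt]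
    rw [Fin.lt_def]; simpa using hi
  unfold edge vv
  rw [h1, seg_graph (hx (Nat.lt_succ_self _))]
  rfl

theorem edge_last (hx : StrictMono x) {M : ℕ} (hM : 0 < M) (h0 : y 0 = 0) (h1 : y M = 0)
    (p : ℝ × ℝ) : p ∈ edge (vv x y M) (Fin.last M) ↔ x 0 ≤ p.1 ∧ p.1 ≤ x M ∧ p.2 = 0 := by
  unfold edge
  rw [finRotate_last]
  have e1 : vv x y M (Fin.last M) = (x M, y M) := by simp [vv]
  have e2 : vv x y M 0 = (x 0, y 0) := by simp [vv]
  rw [e1, e2, segment_symm, seg_graph (hx hM), h0, h1]
  simp

theorem mem_curve (hx : StrictMono x) {M : ℕ} (hM : 0 < M) (h0 : y 0 = 0) (h1 : y M = 0)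
    (p : ℝ × ℝ) : p ∈ curve (vv x y M) ↔
      x 0 ≤ p.1 ∧ p.1 ≤ x M ∧ (p.2 = gg x y M p.1 ∨ p.2 = 0) := by
  unfold curve
  rw [mem_iUnion]
  constructor
  · rintro ⟨i, hi⟩
    rcases Nat.lt_or_ge i M with h | h
    · rw [edge_lt hx i h] at hi
      obtain ⟨a, b, c⟩ := hi
      refine ⟨le_trans (hx.monotone (Nat.zero_le _)) a, le_trans b (hx.monotone h), Or.inl ?_⟩
      rw [c, gg_eq hx h a b]
    · have : i = Fin.last M := by
        apply Fin.ext; rw [Fin.val_last]; have := i.2; omega
      subst this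
      rw [edge_last hx hM h0 h1] at hi
      exact ⟨hi.1, hi.2.1, Or.inr hi.2.2⟩
  · rintro ⟨a, b, c⟩
    rcases c with c | c
    · obtain ⟨k, k1, k2, k3, k4⟩ := exists_cell hM a b
      refine ⟨⟨k, by omega⟩, ?_⟩
      rw [edge_lt hx _ (by simpa using k2)]
      refine ⟨k3, k4, ?_⟩
      rw [c, gg_eq hx k2 k3 k4]
    · exact ⟨Fin.last M, by rw [edge_last hx hM h0 h1]; exact ⟨a, b, c⟩⟩

theorem gg_neg (hx : StrictMono x) {M : ℕ} (hneg : ∀ i, 0 < i → i < M → y i < 0)
    (h0 : y 0 = 0) (h1 : y M = 0) (hM : 2 ≤ M) {t : ℝ} (ht0 : x 0 < t) (ht1 : t < x M) :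
    gg x y M t < 0 := by
  obtain ⟨k, -, k2, k3, k4⟩ := exists_cell (x := x) (by omega : 0 < M) ht0.le ht1.le
  rw [gg_eq hx k2 k3 k4]
  have hk : 0 < x (k + 1) - x k := sub_pos.2 (hx (Nat.lt_succ_self k))
  have e : y k + sl x y k * (t - x k) =
      ((x (k + 1) - t) * y k + (t - x k) * y (k + 1)) / (x (k + 1) - x k) := by
    unfold sl; field_simp; ring
  rw [e]
  apply div_neg_of_neg_of_pos _ hk
  have hyk : y k ≤ 0 := by
    rcases Nat.eq_zero_or_pos k with h | h
    · rw [h, h0]
    · exact (hneg k h k2).le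
  have hyk1 : y (k + 1) ≤ 0 := by
    rcases Nat.lt_or_ge (k + 1) M with h | h
    · exact (hneg _ (Nat.succ_pos k) h).le
    · rw [(by omega : k + 1 = M), h1]
  rcases Nat.eq_zero_or_pos k with h | h
  · subst h
    have a1 : y 1 < 0 := hneg 1 one_pos (by omega)
    have a2 : 0 < t - x 0 := by linarith
    have a3 : (t - x 0) * y (0 + 1) < 0 := mul_neg_of_pos_of_neg a2 a1
    rw [h0]; linarith
  · have a1 : y k < 0 := hneg k h k2
    rcases eq_or_lt_of_le k4 with h5 | h5
    · have h6 : k + 1 < M := by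
        by_contra hc
        rw [(by omega : k + 1 = M)] at h5
        linarith
      have a2 : y (k + 1) < 0 := hneg _ (Nat.succ_pos k) h6
      rw [h5, sub_self, zero_mul, zero_add]
      exact mul_neg_of_pos_of_neg hk a2
    · have a3 : (x (k + 1) - t) * y k < 0 := mul_neg_of_pos_of_neg (by linarith) a1
      have a4 : (t - x k) * y (k + 1) ≤ 0 := mul_nonpos_of_nonneg_of_nonpos (by linarith) hyk1
      linarith

theorem isOpen_UU (M : ℕ) : IsOpen (UU x y M) := by
  have hg := gg_cont x y M
  have e : UU x y M = {p : ℝ × ℝ | x 0 < p.1} ∩ ({p | p.1 < x M} ∩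
      ({p | gg x y M p.1 < p.2} ∩ {p | p.2 < 0})) := by
    ext p; rfl
  rw [e]
  refine (isOpen_lt continuous_const continuous_fst).inter
    ((isOpen_lt continuous_fst continuous_const).inter
      ((isOpen_lt (hg.comp continuous_fst) continuous_snd).inter
        (isOpen_lt continuous_snd continuous_const)))

theorem isClosed_PP (M : ℕ) : IsClosed (PP x y M) := by
  have hg := gg_cont x y M
  have e : PP x y M = {p : ℝ × ℝ | x 0 ≤ p.1} ∩ ({p | p.1 ≤ x M} ∩
      ({p | gg x y M p.1 ≤ p.2} ∩ {p | p.2 ≤ 0})) := by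
    ext p; rfl
  rw [e]
  refine (isClosed_le continuous_const continuous_fst).inter
    ((isClosed_le continuous_fst continuous_const).inter
      ((isClosed_le (hg.comp continuous_fst) continuous_snd).inter
        (isClosed_le continuous_snd continuous_const)))

theorem isCompact_PP (M : ℕ) : IsCompact (PP x y M) := by
  have hg := gg_cont x y M
  obtain ⟨c, hc⟩ := (isCompact_Icc (a := x 0) (b := x M)).bddBelow_image (f := gg x y M)
    hg.continuousOn
  apply IsCompact.of_isClosed_subset
    ((isCompact_Icc (a := x 0) (b := x M)).prod (isCompact_Icc (a := c) (b := (0 : ℝ))))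
    (isClosed_PP M)
  rintro ⟨a, b⟩ ⟨h1, h2, h3, h4⟩
  refine ⟨⟨h1, h2⟩, le_trans (hc ⟨a, ⟨h1, h2⟩, rfl⟩) h3, h4⟩

theorem UU_subset (M : ℕ) : UU x y M ⊆ PP x y M :=
  fun _ h => ⟨h.1.le, h.2.1.le, h.2.2.1.le, h.2.2.2.le⟩

theorem interior_PP (M : ℕ) : interior (PP x y M) = UU x y M := by
  apply Subset.antisymm
  · intro p hp
    rw [mem_interior_iff_mem_nhds, Metric.mem_nhds_iff] at hp
    obtain ⟨ε, hε, hb⟩ := hp
    have hmem : ∀ a b : ℝ, |a| < ε → |b| < ε → (p.1 + a, p.2 + b) ∈ PP x y M := by
      intro a b ha hb'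
      apply hb
      rw [Metric.mem_ball, Prod.dist_eq, Real.dist_eq, Real.dist_eq]
      simp only [add_sub_cancel_left]
      exact max_lt ha hb'
    have e1 : |ε / 2| < ε := by rw [abs_of_pos (by linarith)]; linarith
    have e2 : |-(ε / 2)| < ε := by rw [abs_neg]; exact e1
    have e3 : |(0 : ℝ)| < ε := by simpa using hε
    have a1 := (hmem (-(ε / 2)) 0 e2 e3).1
    have a2 := (hmem (ε / 2) 0 e1 e3).2.1
    have a3 := (hmem 0 (-(ε / 2)) e3 e2).2.2.1
    have a4 := (hmem 0 (ε / 2) e3 e1).2.2.2
    simp only [add_zero] at a1 a2 a3 a4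
    exact ⟨by linarith, by linarith, by linarith, by linarith⟩
  · exact interior_maximal (UU_subset M) (isOpen_UU M)

theorem closure_UU (hx : StrictMono x) {M : ℕ} (hneg : ∀ i, 0 < i → i < M → y i < 0)
    (h0 : y 0 = 0) (h1 : y M = 0) (hM : 2 ≤ M) : PP x y M ⊆ closure (UU x y M) := by
  have hx0M : x 0 < x M := hx (by omega)
  have hgc := gg_cont x y M
  -- first: points with first coordinate strictly inside
  have key : ∀ p ∈ PP x y M, x 0 < p.1 → p.1 < x M → p ∈ closure (UU x y M) := by
    rintro ⟨a, b⟩ ⟨-, -, h3, h4⟩ ha hb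
    simp only at ha hb h3 h4
    have hg := gg_neg hx hneg h0 h1 hM ha hb
    have hlim : Filter.Tendsto (fun s : ℝ => (a, (1 - s) * b + s * (gg x y M a / 2)))
        (nhdsWithin 0 (Set.Ioi 0)) (nhds (a, b)) := by
      have h5 : Filter.Tendsto (fun s : ℝ => (a, (1 - s) * b + s * (gg x y M a / 2)))
        (nhds 0) (nhds (a, (1 - 0) * b + 0 * (gg x y M a / 2))) := by
        apply Continuous.tendsto
        fun_prop
      rw [sub_zero, one_mul, zero_mul, add_zero] at h5
      exact h5.mono_left nhdsWithin_le_nhds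
    apply mem_closure_of_tendsto hlim
    have h6 : ∀ᶠ s : ℝ in nhdsWithin 0 (Set.Ioi 0), s < 1 :=
      (eventually_lt_nhds one_pos).filter_mono nhdsWithin_le_nhds
    filter_upwards [h6, self_mem_nhdsWithin] with s hs1 hs0
    have hs0 : 0 < s := hs0
    refine ⟨ha, hb, ?_, ?_⟩
    · simp only
      nlinarith
    · simp only
      nlinarith
  rintro ⟨a, b⟩ hp
  obtain ⟨h2, h2', h3, h4⟩ := hp
  simp only at h2 h2' h3 h4
  rcases eq_or_lt_of_le h2 with ha | ha
  · -- left corner
    have hb : b = 0 := by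
      rw [← ha, gg_node hx (by omega) (Nat.zero_le _), h0] at h3
      linarith
    subst hb
    rw [← closure_closure]
    have hlim : Filter.Tendsto (fun s : ℝ => (x 0 + s, (0 : ℝ)))
        (nhdsWithin 0 (Set.Ioi 0)) (nhds (a, 0)) := by
      have h5 : Filter.Tendsto (fun s : ℝ => (x 0 + s, (0 : ℝ)))
        (nhds 0) (nhds (x 0 + 0, 0)) := by
        apply Continuous.tendsto
        fun_prop
      rw [add_zero, ha] at h5
      rw [ha]
      exact h5.mono_left nhdsWithin_le_nhds
    apply mem_closure_of_tendsto hlim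
    have h6 : ∀ᶠ s : ℝ in nhdsWithin 0 (Set.Ioi 0), s < x M - x 0 :=
      (eventually_lt_nhds (by linarith)).filter_mono nhdsWithin_le_nhds
    filter_upwards [h6, self_mem_nhdsWithin] with s hs1 hs0
    have hs0 : 0 < s := hs0
    apply key _ _ (by simp only; linarith) (by simp only; linarith)
    refine ⟨by simp only; linarith, by simp only; linarith, ?_, le_rfl⟩
    exact (gg_neg hx hneg h0 h1 hM (by simp only; linarith) (by simp only; linarith)).le
  rcases eq_or_lt_of_le h2' with hb' | hb'
  · have hb : b = 0 := by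
      rw [hb', gg_node hx (by omega) le_rfl, h1] at h3
      linarith
    subst hb
    rw [← closure_closure]
    have hlim : Filter.Tendsto (fun s : ℝ => (x M - s, (0 : ℝ)))
        (nhdsWithin 0 (Set.Ioi 0)) (nhds (a, 0)) := by
      have h5 : Filter.Tendsto (fun s : ℝ => (x M - s, (0 : ℝ)))
        (nhds 0) (nhds (x M - 0, 0)) := by
        apply Continuous.tendsto
        fun_prop
      rw [sub_zero, ← hb'] at h5
      rw [← hb']
      exact h5.mono_left nhdsWithin_le_nhds
    apply mem_closure_of_tendsto hlim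
    have h6 : ∀ᶠ s : ℝ in nhdsWithin 0 (Set.Ioi 0), s < x M - x 0 :=
      (eventually_lt_nhds (by linarith)).filter_mono nhdsWithin_le_nhds
    filter_upwards [h6, self_mem_nhdsWithin] with s hs1 hs0
    have hs0 : 0 < s := hs0
    apply key _ _ (by simp only; linarith) (by simp only; linarith)
    refine ⟨by simp only; linarith, by simp only; linarith, ?_, le_rfl⟩
    exact (gg_neg hx hneg h0 h1 hM (by simp only; linarith) (by simp only; linarith)).le
  exact key _ ⟨h2, h2', h3, h4⟩ ha hb'

theorem isSimple (hx : StrictMono x) {M : ℕ} (hneg : ∀ i, 0 < i → i < M → y i < 0)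
    (h0 : y 0 = 0) (h1 : y M = 0) (hM : 2 ≤ M) : IsSimplePolygon (vv x y M) (PP x y M) := by
  have hM0 : 0 < M := by omega
  have hlt : ∀ i j : Fin (M + 1), (i : ℕ) < j →
      edge (vv x y M) i ∩ edge (vv x y M) j ⊆
        {vv x y M i, vv x y M (finRotate (M + 1) i)} ∩
          {vv x y M j, vv x y M (finRotate (M + 1) j)} := by
    rintro i j hij p ⟨hpi, hpj⟩
    have hi : (i : ℕ) < M := by have := j.2; omega
    have hroti : ((finRotate (M + 1) i : Fin (M + 1)) : ℕ) = i + 1 := by
      rw [finRotate_apply, Fin.val_add_one_of_lt]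
      rw [Fin.lt_def]; simpa using hi
    rw [edge_lt hx i hi] at hpi
    obtain ⟨a, b, c⟩ := hpi
    rcases Nat.lt_or_ge j M with hj | hj
    · rw [edge_lt hx j hj] at hpj
      obtain ⟨a', b', c'⟩ := hpj
      have h2 : x (i + 1) ≤ x j := hx.monotone hij
      have h3 : p.1 = x j := le_antisymm (b.trans h2) a'
      have h4 : x (i + 1) = x j := le_antisymm h2 (a'.trans b)
      have h5 : (i : ℕ) + 1 = j := hx.injective h4
      have hp : p = vv x y M j := by
        unfold vv
        ext
        · exact h3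
        · simp only; rw [c', h3]; ring
      constructor
      · right
        rw [mem_singleton_iff, hp]
        congr 1
        apply Fin.ext; rw [hroti, h5]
      · left; exact hp
    · have hj' : j = Fin.last M := by
        apply Fin.ext; rw [Fin.val_last]; have := j.2; omega
      subst hj'
      rw [edge_last hx hM0 h0 h1] at hpj
      obtain ⟨a', b', c'⟩ := hpj
      -- p has second coordinate 0
      have hg : gg x y M p.1 = 0 := by rw [gg_eq hx hi a b, ← c, c']
      rcases eq_or_lt_of_le a' with h2 | h2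
      · -- p = v 0
        have hi0 : (i : ℕ) = 0 := by
          by_contra hne
          have : x 0 < x i := hx (by omega)
          linarith
        have hp : p = vv x y M 0 := by
          unfold vv
          ext
          · simp [h2]
          · simp [c', h0]
        have hi0' : i = 0 := Fin.ext (by simpa using hi0)
        constructor
        · left; rw [hi0']; exact hp
        · right
          rw [mem_singleton_iff, finRotate_last]; exact hp
      rcases eq_or_lt_of_le b' with h3 | h3
      · have hiM : (i : ℕ) + 1 = M := by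
          by_contra hne
          have : x (i + 1) < x M := hx (by omega)
          linarith
        have hp : p = vv x y M (Fin.last M) := by
          unfold vv
          ext
          · simp [h3]
          · simp [c', h1]
        constructor
        · right
          rw [mem_singleton_iff, hp]
          congr 1
          apply Fin.ext; rw [hroti, hiM, Fin.val_last]
        · left; exact hp
      · have := gg_neg hx hneg h0 h1 hM h2 h3
        linarith
  refine ⟨by omega, ?_, ?_, isCompact_PP M, ?_, ?_⟩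
  · intro i j h
    exact Fin.ext (hx.injective (congrArg Prod.fst h))
  · intro i j hij
    rcases lt_or_gt_of_ne (fun h => hij (Fin.ext h) : (i : ℕ) ≠ j) with h | h
    · exact hlt i j h
    · have := hlt j i h
      rw [inter_comm (edge _ i), inter_comm ({vv x y M i, _} : Set (ℝ × ℝ))]
      exact this
  · rw [interior_PP]
    apply Subset.antisymm
    · exact (closure_mono (UU_subset M)).trans (isClosed_PP M).closure_subset
    · exact closure_UU hx hneg h0 h1 hM
  · rw [(isClosed_PP M).frontier_eq, interior_PP]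
    ext p
    rw [mem_curve hx hM0 h0 h1]
    constructor
    · rintro ⟨⟨a, b, c, d⟩, hU⟩
      refine ⟨a, b, ?_⟩
      by_contra hne
      push Not at hne
      apply hU
      have h2 : gg x y M p.1 < p.2 := lt_of_le_of_ne c (Ne.symm hne.1)
      have h3 : p.2 < 0 := lt_of_le_of_ne d hne.2
      refine ⟨lt_of_le_of_ne a ?_, lt_of_le_of_ne b ?_, h2, h3⟩
      · intro h4
        rw [← h4, gg_node hx hM0 (Nat.zero_le _), h0] at h2
        linarith
      · intro h4
        rw [h4, gg_node hx hM0 le_rfl, h1] at h2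
        linarith
    · rintro ⟨a, b, c⟩
      have hg : gg x y M p.1 ≤ 0 := by
        rcases eq_or_lt_of_le a with h2 | h2
        · rw [← h2, gg_node hx hM0 (Nat.zero_le _), h0]
        rcases eq_or_lt_of_le b with h3 | h3
        · rw [h3, gg_node hx hM0 le_rfl, h1]
        exact (gg_neg hx hneg h0 h1 hM h2 h3).le
      refine ⟨⟨a, b, ?_, ?_⟩, ?_⟩
      · rcases c with c | c
        · exact c.ge
        · rw [c]; exact hg
      · rcases c with c | c
        · rw [c]; exact hg
        · exact c.le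
      · rintro ⟨-, -, e3, e4⟩
        rcases c with c | c <;> linarith

/-- Visibility along the chain. -/
theorem visible_iff (hx : StrictMono x) {M : ℕ} (hneg : ∀ i, 0 < i → i < M → y i < 0)
    (h0 : y 0 = 0) (h1 : y M = 0) (hM : 2 ≤ M) {i j : Fin (M + 1)} (hij : (i : ℕ) < j) :
    segment ℝ (vv x y M i) (vv x y M j) ⊆ PP x y M ↔
      ∀ m : ℕ, (i : ℕ) < m → m < j → (y m - y i) * (x j - x i) ≤ (y j - y i) * (x m - x i) := by
  have hM0 : 0 < M := by omega
  have hjM : (j : ℕ) ≤ M := by have := j.2; omega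
  have hxij : x i < x j := hx hij
  have hd : 0 < x j - x i := sub_pos.2 hxij
  have hyle : ∀ m, m ≤ M → y m ≤ 0 := by
    intro m hm
    rcases Nat.eq_zero_or_pos m with h | h
    · rw [h, h0]
    rcases Nat.lt_or_ge m M with h' | h'
    · exact (hneg m h h').le
    · rw [(by omega : m = M), h1]
  constructor
  · intro hsub m him hmj
    have hxm : x i < x m := hx him
    have hxm' : x m < x j := hx hmj
    have hmem : ((x m, y i + (y j - y i) / (x j - x i) * (x m - x i)) : ℝ × ℝ) ∈
        segment ℝ (vv x y M i) (vv x y M j) := by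
      unfold vv
      rw [seg_graph hxij]
      exact ⟨hxm.le, hxm'.le, rfl⟩
    have h2 := (hsub hmem).2.2.1
    simp only at h2
    rw [gg_node hx hM0 (by omega)] at h2
    have h3 : y m - y i ≤ (y j - y i) * (x m - x i) / (x j - x i) := by
      rw [div_mul_eq_mul_div] at h2; linarith
    rwa [le_div_iff₀ hd] at h3
  · intro hall p hp
    unfold vv at hp
    rw [seg_graph hxij] at hp
    obtain ⟨a, b, c⟩ := hp
    have hall' : ∀ m : ℕ, (i : ℕ) ≤ m → m ≤ j →
        y m ≤ y i + (y j - y i) / (x j - x i) * (x m - x i) := by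
      intro m him hmj
      rcases eq_or_lt_of_le him with h | h
      · rw [← h]; simp
      rcases eq_or_lt_of_le hmj with h' | h'
      · rw [h']; field_simp; linarith
      have h3 := hall m h h'
      rw [← le_div_iff₀ hd] at h3
      rw [div_mul_eq_mul_div]
      linarith
    obtain ⟨k, k1, k2, k3, k4⟩ := exists_cell hij a b
    have hk : 0 < x (k + 1) - x k := sub_pos.2 (hx (Nat.lt_succ_self k))
    refine ⟨(hx.monotone (Nat.zero_le _)).trans a, b.trans (hx.monotone hjM), ?_, ?_⟩
    · rw [gg_eq hx (by omega : k < M) k3 k4, c]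
      have e1 := hall' k k1 (by omega)
      have e2 := hall' (k + 1) (by omega) (by omega)
      set s := (y j - y i) / (x j - x i) with hs
      have e : y k + sl x y k * (p.1 - x k) =
          ((x (k + 1) - p.1) * y k + (p.1 - x k) * y (k + 1)) / (x (k + 1) - x k) := by
        unfold sl; field_simp; ring
      rw [e, div_le_iff₀ hk]
      have f1 := mul_le_mul_of_nonneg_left e1 (by linarith : 0 ≤ x (k + 1) - p.1)
      have f2 := mul_le_mul_of_nonneg_left e2 (by linarith : 0 ≤ p.1 - x k)
      nlinarith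
    · rw [c]
      have g1 := hyle i (by omega)
      have g2 := hyle j hjM
      have e : y i + (y j - y i) / (x j - x i) * (p.1 - x i) =
          ((x j - p.1) * y i + (p.1 - x i) * y j) / (x j - x i) := by
        field_simp; ring
      rw [e]
      apply div_nonpos_of_nonpos_of_nonneg _ hd.le
      have f1 := mul_nonpos_of_nonneg_of_nonpos (by linarith : 0 ≤ x j - p.1) g1
      have f2 := mul_nonpos_of_nonneg_of_nonpos (by linarith : 0 ≤ p.1 - x i) g2
      linarith

end Run7.h196.Vis
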